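import Pool.Agent.Helper10.RBC.Goals
import Pool.Agent.Helper75.HS.CONCb
import Pool.Agent.Helper62.HS.DBB
import Pool.Agent.Helper87.HS.ENER

/-! # RBC, goal RVZ: the logarithmic cut-off -/

open Complex Metric Set Filter Topology MeasureTheory
open scoped ContDiff ComplexConjugate ComplexOrder Manifold Matrix

namespace Pool.Agent.Helper82.RBC

open Pool.Agent.Helper95.Lin Pool.Agent.Helper16.Abund Pool.Agent.Helper92.Orb
  Pool.Agent.Helper10.SP Pool.Agent.Helper95.RK Pool.Agent.Helper57.HS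
  Pool.Agent.Helper15.HS Pool.Agent.Helper15.GS Pool.Agent.Helper57.RBC Pool.Agent.Helper10.RBC
open Pool.Agent.Helper75.HS (AvD)
open Pool.Agent.Helper62.HS (frq frq_nonneg frq_eq frq_mul frq_ct le_frq posDef_factor
  cdb_const_mul)

universe u v

/-! ## Linear algebra -/

/-- The energy density. -/
noncomputable def eng {n : ℕ} (Q : Matrix (Fin n) (Fin n) ℂ) (w : Fin n → ℂ) : ℝ :=
  (∑ k, ∑ l, Q⁻¹ l k * (w k * conj (w l))).re

theorem eng_bound {n : ℕ} {H Q : Matrix (Fin n) (Fin n) ℂ} (hH : H.PosDef) (hQ : Q.PosDef)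
    (w : Fin n → ℂ) : 0 ≤ eng Q w ∧ 0 ≤ (Matrix.trace H).re ∧
      0 ≤ (Matrix.trace (Q * H⁻¹)).re ∧ ∀ l,
      ‖w l‖ ^ 2 ≤ (Matrix.trace H).re * (Matrix.trace (Q * H⁻¹)).re * eng Q w := by
  obtain ⟨X, hX, hXQ⟩ := posDef_factor hQ
  obtain ⟨Y, hY, hYH⟩ := posDef_factor hH
  have hXs : IsUnit (Xᴴ).det := by
    rw [Matrix.det_conjTranspose]; exact hX.star
  have hYs : IsUnit (Yᴴ).det := by
    rw [Matrix.det_conjTranspose]; exact hY.star
  set W : Matrix (Fin n) (Fin 1) ℂ := Matrix.of fun i _ => w i with hWdef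
  set M : Matrix (Fin n) (Fin 1) ℂ := (Xᴴ)⁻¹ * W with hM
  have e1 : frq M = eng Q w := by
    have h1 := frq_eq M
    have h2 : (M * Mᴴ).trace = ∑ k, ∑ l, Q⁻¹ l k * (w k * conj (w l)) := by
      have h3 : M * Mᴴ = (Xᴴ)⁻¹ * (W * Wᴴ * X⁻¹) := by
        rw [hM, Matrix.conjTranspose_mul, Matrix.conjTranspose_nonsing_inv,
          Matrix.conjTranspose_conjTranspose]
        simp only [Matrix.mul_assoc]
      rw [h3, Matrix.trace_mul_comm, Matrix.mul_assoc, ← Matrix.mul_inv_rev, ← hXQ,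
        Matrix.trace_mul_comm]
      unfold Matrix.trace
      rw [Finset.sum_comm]
      refine Finset.sum_congr rfl fun l _ => ?_
      rw [Matrix.diag_apply, Matrix.mul_apply]
      refine Finset.sum_congr rfl fun k _ => ?_
      rw [Matrix.mul_apply]
      simp [hWdef]
    rw [h2] at h1
    unfold eng
    rw [← h1, Complex.ofReal_re]
  have e2 : frq Yᴴ = (Matrix.trace H).re := by
    have h1 := frq_eq Yᴴ
    rw [Matrix.conjTranspose_conjTranspose, ← hYH] at h1
    rw [← h1, Complex.ofReal_re]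
  have e3 : frq (X * Y⁻¹)ᴴ = (Matrix.trace (Q * H⁻¹)).re := by
    have h1 := frq_eq (X * Y⁻¹)ᴴ
    have h2 : (X * Y⁻¹)ᴴ * ((X * Y⁻¹)ᴴ)ᴴ = (Yᴴ)⁻¹ * (Xᴴ * X * Y⁻¹) := by
      rw [Matrix.conjTranspose_conjTranspose, Matrix.conjTranspose_mul,
        Matrix.conjTranspose_nonsing_inv]
      simp only [Matrix.mul_assoc]
    rw [h2, Matrix.trace_mul_comm, Matrix.mul_assoc, ← Matrix.mul_inv_rev, ← hXQ, ← hYH] at h1
    rw [← h1, Complex.ofReal_re]
  have e4 : W = Xᴴ * M := by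
    rw [hM, ← Matrix.mul_assoc, Matrix.mul_nonsing_inv _ hXs, Matrix.one_mul]
  have e5 : Xᴴ = Yᴴ * (X * Y⁻¹)ᴴ := by
    rw [Matrix.conjTranspose_mul, Matrix.conjTranspose_nonsing_inv, ← Matrix.mul_assoc,
      Matrix.mul_nonsing_inv _ hYs, Matrix.one_mul]
  have e6 : frq W ≤ frq Yᴴ * frq (X * Y⁻¹)ᴴ * frq M := by
    calc frq W = frq (Xᴴ * M) := by rw [← e4]
      _ ≤ frq Xᴴ * frq M := frq_mul _ _
      _ ≤ frq Yᴴ * frq (X * Y⁻¹)ᴴ * frq M := by
          refine mul_le_mul_of_nonneg_right ?_ (frq_nonneg _)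
          calc frq Xᴴ = frq (Yᴴ * (X * Y⁻¹)ᴴ) := by rw [← e5]
            _ ≤ _ := frq_mul _ _
  rw [e1, e2, e3] at e6
  refine ⟨e1 ▸ frq_nonneg _, e2 ▸ frq_nonneg _, e3 ▸ frq_nonneg _, fun l => ?_⟩
  have h1 := le_frq W l 0
  have h2 : W l 0 = w l := rfl
  rw [h2] at h1
  exact h1.trans e6

/-! ## Invariance of the energy density -/

theorem eng_inv (hC : S_WCH) (hA : S_ARRB.{u}) (hD : S_DETI.{u}) {n : ℕ} {T : Set (Cn n)}
    {G : Type u} [Group G] {R : G → Cn n → Cn n → Prop} {Q : Cn n → Matrix (Fin n) (Fin n) ℂ}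
    (hQ : KEt T R Q) {g : Cn n → ℝ} (hg : InvF T R g) {γ : G} {x y : Cn n} (h : R γ x y) :
    eng (Q y) (fun k => cd k (fun z => ((g z : ℝ) : ℂ)) y) =
      eng (Q x) (fun k => cd k (fun z => ((g z : ℝ) : ℂ)) x) := by
  have hT : IsOpen T := hQ.et.isOpen
  obtain ⟨U, τ, σ, hxU, hUT, hLA, hτx, -⟩ := (hA T R hQ.et).1 γ x y h
  have hArr : Arr R U τ := ⟨hLA.1, hLA.2.1, γ, hLA.2.2⟩
  have hm : MapsTo τ U T := fun z hz => (hQ.et.mem _ _ _ (hLA.2.2 z hz)).2
  obtain ⟨-, -, -, -, a5, -⟩ := hD T R Q hQ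
  have h1 := (a5 U τ hArr x hxU).2
  have hgc : ContDiffOn ℝ ∞ (fun z => ((g z : ℝ) : ℂ)) T :=
    Complex.ofRealCLM.contDiff.comp_contDiffOn hg.1
  have h2 : ∀ l, cd l (fun z => ((g z : ℝ) : ℂ)) x =
      ∑ j, fderiv ℂ τ x (Pi.single l 1) j * cd j (fun z => ((g z : ℝ) : ℂ)) y := by
    intro l
    have h3 := ((hC.1 T U hT hLA.1 τ hLA.2.1 hm).1 _ hgc l x hxU).1
    rw [hτx] at h3
    rw [← h3]
    have h4 : ((fun z => ((g z : ℝ) : ℂ)) ∘ τ) =ᶠ[𝓝 x] fun z => ((g z : ℝ) : ℂ) := by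
      filter_upwards [hLA.1.mem_nhds hxU] with z hz
      show ((g (τ z) : ℝ) : ℂ) = ((g z : ℝ) : ℂ)
      rw [hg.2 γ z (τ z) (hLA.2.2 z hz)]
    unfold cd
    rw [h4.fderiv_eq]
  subst hτx
  unfold eng
  congr 1
  have h5 : ∀ k l, (Q (τ x))⁻¹ l k * (cd k (fun z => ((g z : ℝ) : ℂ)) (τ x) *
      conj (cd l (fun z => ((g z : ℝ) : ℂ)) (τ x))) =
      ∑ p, ∑ q, (Q x)⁻¹ p q * ((fderiv ℂ τ x (Pi.single q 1) k *
        cd k (fun z => ((g z : ℝ) : ℂ)) (τ x)) * conj (fderiv ℂ τ x (Pi.single p 1) l *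
        cd l (fun z => ((g z : ℝ) : ℂ)) (τ x))) := by
    intro k l
    rw [h1 l k, Finset.sum_mul]
    refine Finset.sum_congr rfl fun p _ => ?_
    rw [Finset.sum_mul]
    refine Finset.sum_congr rfl fun q _ => ?_
    rw [map_mul]
    ring
  have h6 : ∀ k l : Fin n, (Q x)⁻¹ l k * (cd k (fun z => ((g z : ℝ) : ℂ)) x *
      conj (cd l (fun z => ((g z : ℝ) : ℂ)) x)) =
      ∑ i, ∑ j, (Q x)⁻¹ l k * ((fderiv ℂ τ x (Pi.single k 1) i *
        cd i (fun z => ((g z : ℝ) : ℂ)) (τ x)) * conj (fderiv ℂ τ x (Pi.single l 1) j *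
        cd j (fun z => ((g z : ℝ) : ℂ)) (τ x))) := by
    intro k l
    rw [h2 k, h2 l, map_sum, Finset.sum_mul_sum, Finset.mul_sum]
    refine Finset.sum_congr rfl fun i _ => ?_
    rw [Finset.mul_sum]
  simp_rw [h5, h6]
  -- both sides are fourfold sums
  have h7 : ∀ F : Fin n → Fin n → Fin n → Fin n → ℂ,
      ∑ k, ∑ l, ∑ p, ∑ q, F k l p q = ∑ q, ∑ p, ∑ k, ∑ l, F k l p q := by
    intro F
    calc ∑ k, ∑ l, ∑ p, ∑ q, F k l p q = ∑ k, ∑ l, ∑ q, ∑ p, F k l p q :=
          Finset.sum_congr rfl fun k _ => Finset.sum_congr rfl fun l _ => Finset.sum_comm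
      _ = ∑ k, ∑ q, ∑ l, ∑ p, F k l p q :=
          Finset.sum_congr rfl fun k _ => Finset.sum_comm
      _ = ∑ q, ∑ k, ∑ l, ∑ p, F k l p q := Finset.sum_comm
      _ = ∑ q, ∑ k, ∑ p, ∑ l, F k l p q :=
          Finset.sum_congr rfl fun q _ => Finset.sum_congr rfl fun k _ => Finset.sum_comm
      _ = ∑ q, ∑ p, ∑ k, ∑ l, F k l p q :=
          Finset.sum_congr rfl fun q _ => Finset.sum_comm
  exact h7 _

/-! ## Densities and averages -/

theorem det_data (hD : S_DETI.{u}) {n : ℕ} {T : Set (Cn n)} {G : Type u} [Group G]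
    {R : G → Cn n → Cn n → Prop} {Q : Cn n → Matrix (Fin n) (Fin n) ℂ} (hQ : KEt T R Q) :
    (∀ x ∈ T, 0 < (Q x).det.re) ∧ ContinuousOn (fun x => (Q x).det.re) T ∧
      ∀ j k, ContinuousOn (fun x => (Q x)⁻¹ j k) T := by
  obtain ⟨a1, a2, a3, -⟩ := hD T R Q hQ
  exact ⟨fun x hx => (a1 x hx).2.1, a2.continuousOn, fun j k => (a3 j k).continuousOn⟩

theorem avd (hD : S_DETI.{u}) {n : ℕ} {T : Set (Cn n)} {G : Type u} [Group G]
    {R : G → Cn n → Cn n → Prop} {κ : Cn n → ℝ} (hκ : IsPUE T R κ)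
    {Q : Cn n → Matrix (Fin n) (Fin n) ℂ} (hQ : KEt T R Q) {q : ℝ} (hq : 0 < q) {f : Cn n → ℝ}
    (h : q ≤ avE T κ Q f) : AvD T κ Q := by
  obtain ⟨a1, a2, -⟩ := det_data hD hQ
  refine ⟨hQ.et.isOpen, hκ.test, hκ.nonneg, a2, a1, ?_⟩
  have h0 : 0 ≤ itg T κ Q fun _ => 1 := by
    refine setIntegral_nonneg hQ.et.isOpen.measurableSet fun x hx => ?_
    exact mul_nonneg (mul_nonneg (hκ.nonneg x) (a1 x hx).le) zero_le_one
  rcases h0.eq_or_lt with h1 | h1
  · exfalso
    have h2 : avE T κ Q f = 0 := by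
      unfold avE
      rw [← h1, div_zero]
    rw [h2] at h
    linarith
  · exact h1

theorem vol_eq {n : ℕ} (T : Set (Cn n)) (κ : Cn n → ℝ) (Q : Cn n → Matrix (Fin n) (Fin n) ℂ) :
    Pool.Agent.Helper95.HS.vol T κ Q = itg T κ Q fun _ => 1 := by
  unfold Pool.Agent.Helper95.HS.vol itg
  simp

theorem dn_data (hD : S_DETI.{u}) {n : ℕ} {T : Set (Cn n)} {G : Type u} [Group G]
    {R : G → Cn n → Cn n → Prop} {κ : Cn n → ℝ} {H Q : Cn n → Matrix (Fin n) (Fin n) ℂ}
    (hK : KEt T R H) (hQ : KEt T R Q) (hA : AvD T κ Q) :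
    (∀ x ∈ T, 0 < dn T κ H Q x) ∧ ContinuousOn (dn T κ H Q) T ∧
      ∀ f : Cn n → ℝ, avE T κ Q f =
        ∫ x in T, κ x * (H x).det.re * (dn T κ H Q x * f x) := by
  obtain ⟨a1, a2, -⟩ := det_data hD hK
  obtain ⟨b1, b2, -⟩ := det_data hD hQ
  have hv : 0 < Pool.Agent.Helper95.HS.vol T κ Q := by
    rw [vol_eq]; exact hA.D
  refine ⟨fun x hx => div_pos (b1 x hx) (mul_pos hv (a1 x hx)), ?_, fun f => ?_⟩
  · exact b2.div (continuousOn_const.mul a2) fun x hx => (mul_pos hv (a1 x hx)).ne'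
  · unfold avE
    rw [← vol_eq]
    unfold itg
    rw [div_eq_inv_mul, ← integral_const_mul]
    refine setIntegral_congr_fun hK.et.isOpen.measurableSet fun x hx => ?_
    have h1 := a1 x hx
    show (Pool.Agent.Helper95.HS.vol T κ Q)⁻¹ * (κ x * (Q x).det.re * f x) =
      κ x * (H x).det.re * (dn T κ H Q x * f x)
    unfold dn
    field_simp

/-- The average is controlled by the integral over the support of the partition function. -/
theorem av_le (hD : S_DETI.{u}) {n : ℕ} {T : Set (Cn n)} {G : Type u} [Group G]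
    {R : G → Cn n → Cn n → Prop} {κ : Cn n → ℝ} {H : Cn n → Matrix (Fin n) (Fin n) ℂ}
    (hK : KEt T R H) (hκ : IsPUE T R κ) : ∃ A : ℝ, 0 < A ∧
      ∀ Q : Cn n → Matrix (Fin n) (Fin n) ℂ, KEt T R Q → AvD T κ Q → ∀ f : Cn n → ℝ,
      ContinuousOn f T → (∀ x ∈ T, 0 ≤ f x) →
      avE T κ Q f ≤ A * ∫ x in tsupport κ, dn T κ H Q x * f x := by
  obtain ⟨a1, a2, -⟩ := det_data hD hK
  have hT := hK.et.isOpen
  have hC : IsCompact (tsupport κ) := hκ.test.2.1
  have hCT : tsupport κ ⊆ T := hκ.test.2.2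
  have hc : ContinuousOn (fun x => κ x * (H x).det.re) (tsupport κ) :=
    hκ.test.1.continuous.continuousOn.mul (a2.mono hCT)
  obtain ⟨A, hAb⟩ := hC.exists_bound_of_continuousOn hc
  refine ⟨|A| + 1, by positivity, fun Q hQ hAQ f hf hf0 => ?_⟩
  obtain ⟨d1, d2, d3⟩ := dn_data hD hK hQ hAQ
  rw [d3 f]
  have h1 : ∫ x in T, κ x * (H x).det.re * (dn T κ H Q x * f x) =
      ∫ x in tsupport κ, κ x * (H x).det.re * (dn T κ H Q x * f x) := by
    refine setIntegral_eq_of_subset_of_forall_sdiff_eq_zero hT.measurableSet hCT fun x hx => ?_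
    have h2 : κ x = 0 := image_eq_zero_of_notMem_tsupport hx.2
    rw [h2]; ring
  rw [h1, ← integral_const_mul]
  have hdf : ContinuousOn (fun x => dn T κ H Q x * f x) (tsupport κ) :=
    (d2.mul hf).mono hCT
  refine setIntegral_mono_on ((hc.mul hdf).integrableOn_compact hC)
    ((continuousOn_const.mul hdf).integrableOn_compact hC) hC.isClosed.measurableSet
    fun x hx => ?_
  refine mul_le_mul_of_nonneg_right ?_ (mul_nonneg (d1 x (hCT hx)).le (hf0 x (hCT hx)))
  have h3 := hAb x hx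
  rw [Real.norm_eq_abs] at h3
  have h4 := le_abs_self (κ x * (H x).det.re)
  have h5 := le_abs_self A
  linarith

/-- Compact sets are controlled by averages. -/
theorem loc_le (hD : S_DETI.{u}) (hL : S_LOCB.{u}) {n : ℕ} {T : Set (Cn n)} {G : Type u}
    [Group G] {R : G → Cn n → Cn n → Prop} {κ : Cn n → ℝ} {H : Cn n → Matrix (Fin n) (Fin n) ℂ}
    (hK : KEt T R H) (hκ : IsPUE T R κ) {C : Set (Cn n)} (hCT : C ⊆ T) (hC : IsCompact C) :
    ∃ B : ℝ, 0 < B ∧ ∀ (K : ℝ) (Q : Cn n → Matrix (Fin n) (Fin n) ℂ), KEt T R Q → AvD T κ Q →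
      QPF T R H K (fun x => Real.log (dn T κ H Q x)) → ∀ f : Cn n → ℝ,
      ContinuousOn f T → (∀ x ∈ T, 0 ≤ f x) → (∀ γ x y, R γ x y → f y = f x) →
      ∫ x in C, dn T κ H Q x * f x ≤ B * avE T κ Q f := by
  obtain ⟨B, hB, hl⟩ := hL T R H hK κ hκ C hCT hC
  refine ⟨B, hB, fun K Q hQ hAQ hq f hf hf0 hfi => ?_⟩
  obtain ⟨d1, d2, d3⟩ := dn_data hD hK hQ hAQ
  have hi : ∀ γ x y, R γ x y → dn T κ H Q y = dn T κ H Q x := by
    intro γ x y h
    have h1 := hq.inv.2 γ x y h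
    have h2 := d1 x (hK.et.mem _ _ _ h).1
    have h3 := d1 y (hK.et.mem _ _ _ h).2
    exact Real.log_injOn_pos (mem_Ioi.2 h3) (mem_Ioi.2 h2) h1
  rw [d3 f]
  exact hl (fun x => dn T κ H Q x * f x) (d2.mul hf)
    (fun x hx => mul_nonneg (d1 x hx).le (hf0 x hx)) fun γ x y h => by
      show dn T κ H Q y * f y = dn T κ H Q x * f x
      rw [hi γ x y h, hfi γ x y h]

/-! ## The bound of the derivatives -/

theorem eng_cont (hW : S_WIRT) (hD : S_DETI.{u}) {n : ℕ} {T : Set (Cn n)} {G : Type u} [Group G]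
    {R : G → Cn n → Cn n → Prop} {Q : Cn n → Matrix (Fin n) (Fin n) ℂ} (hQ : KEt T R Q)
    {g : Cn n → ℝ} (hg : ContDiffOn ℝ ∞ g T) :
    ContinuousOn (fun x => eng (Q x) (fun k => cd k (fun y => ((g y : ℝ) : ℂ)) x)) T := by
  obtain ⟨-, -, a3⟩ := det_data hD hQ
  have hgc : ContDiffOn ℝ ∞ (fun z => ((g z : ℝ) : ℂ)) T :=
    Complex.ofRealCLM.contDiff.comp_contDiffOn hg
  have hcd : ∀ l, ContinuousOn (cd l (fun z => ((g z : ℝ) : ℂ))) T := fun l =>
    ((hW T hQ.et.isOpen _ _ hgc hgc).1 l).1.continuousOn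
  unfold eng
  refine Complex.continuous_re.comp_continuousOn ?_
  refine continuousOn_finsetSum _ fun k _ => continuousOn_finsetSum _ fun l _ => ?_
  exact (a3 l k).mul ((hcd k).mul (Complex.continuous_conj.comp_continuousOn (hcd l)))

theorem grad_le (hW : S_WIRT) (hC : S_WCH) (hA : S_ARRB.{u}) (hD : S_DETI.{u})
    (hL : S_LOCB.{u}) {n : ℕ} {T : Set (Cn n)} {G : Type u} [Group G]
    {R : G → Cn n → Cn n → Prop} {κ : Cn n → ℝ} {H : Cn n → Matrix (Fin n) (Fin n) ℂ}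
    (hK : KEt T R H) (hκ : IsPUE T R κ) (K B : ℝ) {C : Set (Cn n)} (hCT : C ⊆ T)
    (hCc : IsCompact C) : ∃ D : ℝ, ∀ Q : Cn n → Matrix (Fin n) (Fin n) ℂ, KEt T R Q →
      AvD T κ Q → QPF T R H K (fun x => Real.log (dn T κ H Q x)) →
      ∫ x in C, (Matrix.trace (Q x * (H x)⁻¹)).re ≤ B → ∀ g : Cn n → ℝ, InvF T R g →
      avE T κ Q (fun x => eng (Q x) (fun k => cd k (fun y => ((g y : ℝ) : ℂ)) x)) ≤ 1 →
      ∀ l, ∫ x in C, dn T κ H Q x * ‖cdb l (fun y => ((g y : ℝ) : ℂ)) x‖ ≤ D := by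
  obtain ⟨B2, hB2, hloc⟩ := loc_le hD hL hK hκ hCT hCc
  have hT := hK.et.isOpen
  obtain ⟨-, -, hHi⟩ := det_data hD hK
  have hHc : ContinuousOn (fun x => (Matrix.trace (H x)).re) C := by
    have h1 : ContinuousOn H T := Pool.Agent.Helper75.HS.contM fun i j => (hK.smooth i j).continuousOn
    exact (Complex.continuous_re.comp (continuous_id.matrix_trace)).comp_continuousOn (h1.mono hCT)
  obtain ⟨h0, hh0⟩ := hCc.exists_bound_of_continuousOn hHc
  refine ⟨Real.exp K * |h0| * B + B2, fun Q hQ hAQ hq hB g hg hE l => ?_⟩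
  obtain ⟨d1, d2, d3⟩ := dn_data hD hK hQ hAQ
  have hgc : ContDiffOn ℝ ∞ (fun z => ((g z : ℝ) : ℂ)) T :=
    Complex.ofRealCLM.contDiff.comp_contDiffOn hg.1
  have hcdb : ContinuousOn (cdb l (fun z => ((g z : ℝ) : ℂ))) T :=
    ((hW T hT _ _ hgc hgc).1 l).2.continuousOn
  have hec := eng_cont hW hD hQ hg.1
  have htc : ContinuousOn (fun x => (Matrix.trace (Q x * (H x)⁻¹)).re) T := by
    have h1 : ContinuousOn Q T := Pool.Agent.Helper75.HS.contM fun i j => (hQ.smooth i j).continuousOn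
    have h2 : ContinuousOn (fun x => (H x)⁻¹) T := Pool.Agent.Helper75.HS.contM hHi
    exact (Complex.continuous_re.comp (continuous_id.matrix_trace)).comp_continuousOn
      (Pool.Agent.Helper75.HS.contMul h1 h2)
  have hdle : ∀ x ∈ T, dn T κ H Q x ≤ Real.exp K := by
    intro x hx
    have h1 := hq.le x hx
    rw [← Real.exp_log (d1 x hx)]
    exact Real.exp_le_exp.2 h1
  have hpt : ∀ x ∈ C, dn T κ H Q x * ‖cdb l (fun y => ((g y : ℝ) : ℂ)) x‖ ≤
      Real.exp K * |h0| * (Matrix.trace (Q x * (H x)⁻¹)).re +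
        dn T κ H Q x * eng (Q x) (fun k => cd k (fun y => ((g y : ℝ) : ℂ)) x) := by
    intro x hx
    have hxT := hCT hx
    obtain ⟨b1, b2, b3, b4⟩ := eng_bound (hK.posDef x hxT) (hQ.posDef x hxT)
      (fun k => cd k (fun y => ((g y : ℝ) : ℂ)) x)
    have b5 := b4 l
    have b6 := hh0 x hx
    rw [Real.norm_eq_abs] at b6
    have b7 : (Matrix.trace (H x)).re ≤ |h0| :=
      (le_abs_self _).trans (b6.trans (le_abs_self _))
    rw [Pool.Agent.Helper87.HS.cdb_real hW hT hg.1 hxT l]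
    rw [RCLike.norm_conj]
    set w := ‖cd l (fun y => ((g y : ℝ) : ℂ)) x‖ with hw
    set t := (Matrix.trace (Q x * (H x)⁻¹)).re with ht
    set e := eng (Q x) (fun k => cd k (fun y => ((g y : ℝ) : ℂ)) x) with he
    have b8 : w ^ 2 ≤ |h0| * t * e := by
      refine b5.trans ?_
      exact mul_le_mul_of_nonneg_right (mul_le_mul_of_nonneg_right b7 b3) b1
    have b9 : 0 ≤ |h0| * t := mul_nonneg (abs_nonneg _) b3
    have b10 : w ≤ |h0| * t + e := by
      by_contra hcon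
      push Not at hcon
      have h1 : (|h0| * t + e) ^ 2 < w ^ 2 := by
        exact pow_lt_pow_left₀ hcon (by positivity) two_ne_zero
      nlinarith [mul_nonneg b9 b1, sq_nonneg (|h0| * t), sq_nonneg e]
    have b11 := d1 x hxT
    calc dn T κ H Q x * w ≤ dn T κ H Q x * (|h0| * t + e) :=
          mul_le_mul_of_nonneg_left b10 b11.le
      _ = dn T κ H Q x * (|h0| * t) + dn T κ H Q x * e := by ring
      _ ≤ Real.exp K * (|h0| * t) + dn T κ H Q x * e := by
          have := mul_le_mul_of_nonneg_right (hdle x hxT) b9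
          linarith
      _ = _ := by ring
  have i1 : IntegrableOn (fun x => dn T κ H Q x * ‖cdb l (fun y => ((g y : ℝ) : ℂ)) x‖) C :=
    ((d2.mul hcdb.norm).mono hCT).integrableOn_compact hCc
  have i2 : IntegrableOn (fun x => Real.exp K * |h0| * (Matrix.trace (Q x * (H x)⁻¹)).re) C :=
    ((continuousOn_const.mul htc).mono hCT).integrableOn_compact hCc
  have i3 : IntegrableOn (fun x => dn T κ H Q x *
      eng (Q x) (fun k => cd k (fun y => ((g y : ℝ) : ℂ)) x)) C :=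
    ((d2.mul hec).mono hCT).integrableOn_compact hCc
  refine (setIntegral_mono_on i1 (i2.add i3) hCc.isClosed.measurableSet hpt).trans ?_
  have h5 : ∫ x in C, ((fun x => Real.exp K * |h0| * (Matrix.trace (Q x * (H x)⁻¹)).re) x +
      (fun x => dn T κ H Q x * eng (Q x) (fun k => cd k (fun y => ((g y : ℝ) : ℂ)) x)) x) =
      Real.exp K * |h0| * (∫ x in C, (Matrix.trace (Q x * (H x)⁻¹)).re) +
      ∫ x in C, dn T κ H Q x * eng (Q x) (fun k => cd k (fun y => ((g y : ℝ) : ℂ)) x) := by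
    rw [integral_add i2 i3, integral_const_mul]
  refine (le_of_eq h5).trans ?_
  have h6 := hloc K Q hQ hAQ hq _ hec
    (fun x hx => (eng_bound (hK.posDef x hx) (hQ.posDef x hx) _).1)
    (fun γ x y h => eng_inv hC hA hD hQ hg h)
  have h7 : B2 * avE T κ Q (fun x => eng (Q x) (fun k => cd k (fun y => ((g y : ℝ) : ℂ)) x)) ≤
      B2 * 1 := mul_le_mul_of_nonneg_left hE hB2.le
  have h8 : Real.exp K * |h0| * (∫ x in C, (Matrix.trace (Q x * (H x)⁻¹)).re) ≤
      Real.exp K * |h0| * B := mul_le_mul_of_nonneg_left hB (by positivity)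
  linarith

theorem av_aff {n : ℕ} {T : Set (Cn n)} {κ : Cn n → ℝ} {Q : Cn n → Matrix (Fin n) (Fin n) ℂ}
    (h : AvD T κ Q) {f g : Cn n → ℝ} (hf : ContinuousOn f T) (hg : ContinuousOn g T) (c b : ℝ)
    (hfg : ∀ x ∈ T, f x ≤ c + b * g x) : avE T κ Q f ≤ c + b * avE T κ Q g := by
  have hb : ContinuousOn (fun x => b * g x) T := continuousOn_const.mul hg
  have hc : ContinuousOn (fun _ : Cn n => c) T := continuousOn_const
  have h1 : avE T κ Q f ≤ avE T κ Q (fun x => c + b * g x) := h.mono hf (hc.add hb) hfg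
  rwa [h.add hc hb, h.const, AvD.smul] at h1

/-! ## The theorem -/

theorem rvz (hW : S_WIRT) (hC : S_WCH) (hA : S_ARRB.{u}) (hD : S_DETI.{u}) (hL : S_LOCB.{u})
    (hS : S_RSC.{u}) : S_RVZ.{u} := by
  intro n T G _ R H hK κ hκ K M q hq δ η v Q hQ hqp htr hvI hvb hδη hη0 hηv hqa hE
  have hT := hK.et.isOpen
  obtain ⟨x₀, hx₀⟩ := hK.et.nonempty
  have hM0 : 0 ≤ M := ((hvb 0 x₀ hx₀).1).trans (hvb 0 x₀ hx₀).2
  have hAv : ∀ j, AvD T κ (Q j) := fun j => avd hD hκ (hQ j) hq (hqa j)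
  have hdn : ∀ j, _ := fun j => dn_data hD hK (hQ j) (hAv j)
  obtain ⟨A, hA0, hav⟩ := av_le hD hK hκ
  -- the functions
  have hpos : ∀ j, ∀ x ∈ T, 0 < v j x + δ j := fun j x hx =>
    add_pos_of_nonneg_of_pos (hvb j x hx).1 (hδη j).1
  have hle1 : ∀ j, ∀ x ∈ T, v j x + δ j ≤ M + 1 := fun j x hx =>
    add_le_add (hvb j x hx).2 (hδη j).2.1
  set g : ℕ → Cn n → ℝ := fun j x => Real.log (v j x + δ j) with hg
  set L : ℕ → ℝ := fun j => max (- Real.log (η j)) 1 with hLdef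
  set f : ℕ → Cn n → ℝ := fun j x => (L j)⁻¹ * (g j x - Real.log (η j)) with hf
  have hL1 : ∀ j, 1 ≤ L j := fun j => le_max_right _ _
  have hL0 : ∀ j, 0 < L j := fun j => one_pos.trans_le (hL1 j)
  have hLl : ∀ j, - Real.log (η j) ≤ L j := fun j => le_max_left _ _
  have hlog : Tendsto (fun j => - Real.log (η j)) atTop atTop := by
    rw [tendsto_neg_atTop_iff]
    refine Real.tendsto_log_nhdsGT_zero.comp ?_
    exact tendsto_nhdsWithin_iff.2 ⟨hη0, Eventually.of_forall fun j => (hδη j).2.2⟩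
  have hLt : Tendsto L atTop atTop := tendsto_atTop_mono hLl hlog
  have hLi : Tendsto (fun j => (L j)⁻¹) atTop (𝓝 0) := tendsto_inv_atTop_zero.comp hLt
  have hgI : ∀ j, InvF T R (g j) := by
    intro j
    refine ⟨?_, fun γ x y h => ?_⟩
    · exact ((hvI j).1.add contDiffOn_const).log fun x hx => (hpos j x hx).ne'
    · show Real.log (v j y + δ j) = Real.log (v j x + δ j)
      rw [(hvI j).2 γ x y h]
  have hfI : ∀ j, InvF T R (f j) := by
    intro j
    refine ⟨contDiffOn_const.mul ((hgI j).1.sub contDiffOn_const), fun γ x y h => ?_⟩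
    show (L j)⁻¹ * (g j y - Real.log (η j)) = (L j)⁻¹ * (g j x - Real.log (η j))
    rw [(hgI j).2 γ x y h]
  have hfnn : ∀ j, ∀ x ∈ T, 0 ≤ f j x := by
    intro j x hx
    refine mul_nonneg (inv_nonneg.2 (hL0 j).le) (sub_nonneg.2 ?_)
    exact Real.log_le_log (hδη j).2.2 (hηv j x hx)
  have hfle : ∀ j, ∀ x ∈ T, f j x ≤ Real.log (M + 1) + 1 := by
    intro j x hx
    have h1 : g j x ≤ Real.log (M + 1) := Real.log_le_log (hpos j x hx) (hle1 j x hx)
    have h2 : 0 ≤ Real.log (M + 1) := Real.log_nonneg (by linarith)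
    have h3 : f j x ≤ (L j)⁻¹ * (Real.log (M + 1) + L j) := by
      refine mul_le_mul_of_nonneg_left ?_ (inv_nonneg.2 (hL0 j).le)
      have := hLl j
      linarith
    have h4 : (L j)⁻¹ * (Real.log (M + 1) + L j) = (L j)⁻¹ * Real.log (M + 1) + 1 := by
      rw [mul_add, inv_mul_cancel₀ (hL0 j).ne']
    have h5 : (L j)⁻¹ * Real.log (M + 1) ≤ 1 * Real.log (M + 1) :=
      mul_le_mul_of_nonneg_right (inv_le_one_of_one_le₀ (hL1 j)) h2
    linarith
  have hfabs : ∀ j, ∀ x ∈ T, |f j x| ≤ Real.log (M + 1) + 1 := fun j x hx => by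
    rw [abs_of_nonneg (hfnn j x hx)]; exact hfle j x hx
  -- the exponential identity
  have hLf : ∀ j x, L j * f j x = g j x - Real.log (η j) := fun j x => by
    show L j * ((L j)⁻¹ * (g j x - Real.log (η j))) = _
    rw [← mul_assoc, mul_inv_cancel₀ (hL0 j).ne', one_mul]
  have hexpf : ∀ j, ∀ x ∈ T, v j x + δ j = η j * Real.exp (L j * f j x) := by
    intro j x hx
    rw [hLf, Real.exp_sub, Real.exp_log (hδη j).2.2]
    show v j x + δ j = η j * (Real.exp (Real.log (v j x + δ j)) / η j)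
    rw [Real.exp_log (hpos j x hx), mul_div_cancel₀ _ (hδη j).2.2.ne']
  -- the derivatives
  have hcdb : ∀ j l, ∀ x ∈ T, ‖cdb l (fun y => ((f j y : ℝ) : ℂ)) x‖ =
      (L j)⁻¹ * ‖cdb l (fun y => ((g j y : ℝ) : ℂ)) x‖ := by
    intro j l x hx
    have hgc : ContDiffOn ℝ ∞ (fun z => ((g j z : ℝ) : ℂ)) T :=
      Complex.ofRealCLM.contDiff.comp_contDiffOn (hgI j).1
    have hgd : DifferentiableAt ℝ (fun z => ((g j z : ℝ) : ℂ)) x :=
      (hgc.contDiffAt (hT.mem_nhds hx)).differentiableAt (by simp)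
    have h1 : (fun y => ((f j y : ℝ) : ℂ)) = fun y => (((L j)⁻¹ : ℝ) : ℂ) *
        (((g j y : ℝ) : ℂ) - ((Real.log (η j) : ℝ) : ℂ)) := by
      funext y
      show (((L j)⁻¹ * (g j y - Real.log (η j)) : ℝ) : ℂ) = _
      push_cast; ring
    rw [h1, cdb_const_mul l _ _ x (hgd.sub_const _), norm_mul]
    have h2 : cdb l (fun y => ((g j y : ℝ) : ℂ) - ((Real.log (η j) : ℝ) : ℂ)) x =
        cdb l (fun y => ((g j y : ℝ) : ℂ)) x := by
      unfold cdb
      rw [fderiv_sub_const]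
    rw [h2, Complex.norm_real, Real.norm_eq_abs, abs_of_pos (inv_pos.2 (hL0 j))]
  have hder : ∀ C ⊆ T, IsCompact C → ∀ l, Tendsto (fun j => ∫ x in C,
      Real.exp (Real.log (dn T κ H (Q j) x)) * ‖cdb l (fun y => ((f j y : ℝ) : ℂ)) x‖)
      atTop (𝓝 0) := by
    intro C hCT hCc l
    obtain ⟨B, hB⟩ := htr C hCT hCc
    obtain ⟨D, hD1⟩ := grad_le hW hC hA hD hL hK hκ K B hCT hCc
    have h1 : ∀ j, ∫ x in C, Real.exp (Real.log (dn T κ H (Q j) x)) *
        ‖cdb l (fun y => ((f j y : ℝ) : ℂ)) x‖ = (L j)⁻¹ * ∫ x in C, dn T κ H (Q j) x *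
        ‖cdb l (fun y => ((g j y : ℝ) : ℂ)) x‖ := by
      intro j
      rw [← integral_const_mul]
      refine setIntegral_congr_fun hCc.isClosed.measurableSet fun x hx => ?_
      show Real.exp (Real.log (dn T κ H (Q j) x)) * _ = _
      rw [Real.exp_log ((hdn j).1 x (hCT hx)), hcdb j l x (hCT hx)]
      ring
    have h2 : Tendsto (fun j => (L j)⁻¹ * |D|) atTop (𝓝 0) := by
      simpa using hLi.mul_const |D|
    refine squeeze_zero (fun j => ?_) (fun j => ?_) h2
    · refine setIntegral_nonneg hCc.isClosed.measurableSet fun x _ => ?_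
      positivity
    · rw [h1 j]
      refine mul_le_mul_of_nonneg_left ?_ (inv_nonneg.2 (hL0 j).le)
      refine le_trans ?_ (le_abs_self D)
      exact hD1 (Q j) (hQ j) (hAv j) (hqp j) (hB j) (g j) (hgI j) (hE j) l
  -- subsequences
  refine tendsto_of_subseq_tendsto fun ns hns => ?_
  obtain ⟨φ, hφ, a, ha⟩ := hS T R H hK K (Real.log (M + 1) + 1)
    (fun j x => Real.log (dn T κ H (Q (ns j)) x)) (fun j => f (ns j)) (fun j => hqp (ns j))
    (fun j => hfI (ns j)) (fun j => hfabs (ns j))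
    (fun C hCT hCc l => (hder C hCT hCc l).comp hns)
  refine ⟨φ, ?_⟩
  have hi : Tendsto (fun j => ns (φ j)) atTop atTop := hns.comp hφ.tendsto_atTop
  have hfac : ∀ j, ContinuousOn (fun x => |f j x - a|) T := fun j =>
    ((hfI j).1.continuousOn.sub continuousOn_const).abs
  have he : Tendsto (fun j => avE T κ (Q (ns (φ j))) fun x => |f (ns (φ j)) x - a|) atTop
      (𝓝 0) := by
    have h1 := (ha (tsupport κ) hκ.test.2.2 hκ.test.2.1).const_mul A
    rw [mul_zero] at h1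
    refine squeeze_zero (fun j => ?_) (fun j => ?_) h1
    · exact (hAv _).nonneg (hfac _) fun x _ => abs_nonneg _
    · refine (hav (Q (ns (φ j))) (hQ _) (hAv _) _ (hfac _) fun x _ => abs_nonneg _).trans ?_
      refine mul_le_mul_of_nonneg_left (le_of_eq ?_) hA0.le
      refine setIntegral_congr_fun hκ.test.2.1.isClosed.measurableSet fun x hx => ?_
      show dn T κ H (Q (ns (φ j))) x * _ = Real.exp (Real.log (dn T κ H (Q (ns (φ j))) x)) * _
      rw [Real.exp_log ((hdn _).1 x (hκ.test.2.2 hx))]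
  have hexc : ∀ (c : ℝ), ContinuousOn (fun _ : Cn n => c) T := fun c => continuousOn_const
  have hlim0 : Tendsto (fun j => Real.exp (-(L (ns (φ j)) * (a / 2)))) atTop (𝓝 0) ∨ a ≤ 0 := by
    rcases le_or_gt a 0 with h | h
    · exact Or.inr h
    · left
      refine Real.tendsto_exp_neg_atTop_nhds_zero.comp ?_
      exact (hLt.comp hi).atTop_mul_const (by linarith)
  rcases lt_trichotomy a 0 with ha0 | ha0 | ha0
  · exfalso
    have h1 : ∀ j, - a ≤ avE T κ (Q (ns (φ j))) fun x => |f (ns (φ j)) x - a| := by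
      intro j
      have h2 := (hAv (ns (φ j))).mono (hexc (-a)) (hfac (ns (φ j))) fun x hx => by
        have h3 := hfnn (ns (φ j)) x hx
        have h4 := le_abs_self (f (ns (φ j)) x - a)
        linarith
      rwa [(hAv (ns (φ j))).const] at h2
    have h2 := ge_of_tendsto' he h1
    linarith
  · subst ha0
    have hs : Tendsto (fun j => η j * Real.exp (L j * (1 / 2))) atTop (𝓝 0) := by
      have h1 : Tendsto (fun j => Real.exp (-(L j * (1 / 2)))) atTop (𝓝 0) :=
        Real.tendsto_exp_neg_atTop_nhds_zero.comp (hLt.atTop_mul_const (by norm_num))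
      refine h1.congr' ?_
      filter_upwards [hlog.eventually_ge_atTop 1] with j hj
      have h2 : L j = - Real.log (η j) := max_eq_left hj
      have h3 : η j = Real.exp (- L j) := by
        rw [h2, neg_neg, Real.exp_log (hδη j).2.2]
      have h4 : η j * Real.exp (L j * (1 / 2)) = Real.exp (- L j) * Real.exp (L j * (1 / 2)) := by
        rw [← h3]
      rw [h4, ← Real.exp_add]
      congr 1
      ring
    have h1 : Tendsto (fun j => η (ns (φ j)) * Real.exp (L (ns (φ j)) * (1 / 2)) +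
        2 * M * avE T κ (Q (ns (φ j))) fun x => |f (ns (φ j)) x - 0|) atTop (𝓝 0) := by
      have h2 := (hs.comp hi).add (he.const_mul (2 * M))
      simpa using h2
    refine squeeze_zero (fun j => ?_) (fun j => ?_) h1
    · exact (hAv _).nonneg (hvI _).1.continuousOn fun x hx => (hvb _ x hx).1
    · refine av_aff (hAv (ns (φ j))) (hvI (ns (φ j))).1.continuousOn (hfac (ns (φ j)))
        (η (ns (φ j)) * Real.exp (L (ns (φ j)) * (1 / 2))) (2 * M) fun x hx => ?_
      · show v (ns (φ j)) x ≤ η (ns (φ j)) * Real.exp (L (ns (φ j)) * (1 / 2)) +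
          2 * M * |f (ns (φ j)) x - 0|
        rw [sub_zero, abs_of_nonneg (hfnn _ x hx)]
        have hη := (hδη (ns (φ j))).2.2
        rcases le_or_gt (f (ns (φ j)) x) (1 / 2) with hc | hc
        · have h5 : v (ns (φ j)) x ≤ η (ns (φ j)) * Real.exp (L (ns (φ j)) * (1 / 2)) := by
            have h6 := hexpf (ns (φ j)) x hx
            have h7 : Real.exp (L (ns (φ j)) * f (ns (φ j)) x) ≤
                Real.exp (L (ns (φ j)) * (1 / 2)) :=
              Real.exp_le_exp.2 (mul_le_mul_of_nonneg_left hc (hL0 _).le)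
            have h8 := mul_le_mul_of_nonneg_left h7 hη.le
            have h9 := (hδη (ns (φ j))).1
            linarith
          have h6 : 0 ≤ 2 * M * f (ns (φ j)) x := by
            have := hfnn (ns (φ j)) x hx
            positivity
          linarith
        · have h5 := (hvb (ns (φ j)) x hx).2
          have h6 : M ≤ 2 * M * f (ns (φ j)) x := by nlinarith
          have h7 : 0 ≤ η (ns (φ j)) * Real.exp (L (ns (φ j)) * (1 / 2)) := by positivity
          linarith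
  · exfalso
    rcases hlim0 with h0 | h0
    swap
    · linarith
    have h1 : Tendsto (fun j => Real.exp (-(L (ns (φ j)) * (a / 2))) +
        2 / a * avE T κ (Q (ns (φ j))) fun x => |f (ns (φ j)) x - a|) atTop (𝓝 0) := by
      have h2 := h0.add (he.const_mul (2 / a))
      simpa using h2
    have h2 : ∀ j, q ≤ Real.exp (-(L (ns (φ j)) * (a / 2))) +
        2 / a * avE T κ (Q (ns (φ j))) fun x => |f (ns (φ j)) x - a| := by
      intro j
      refine (hqa (ns (φ j))).trans ?_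
      have hc1 : ContinuousOn (fun x => η (ns (φ j)) / (v (ns (φ j)) x + δ (ns (φ j)))) T :=
        continuousOn_const.div ((hvI _).1.continuousOn.add continuousOn_const) fun x hx =>
          (hpos _ x hx).ne'
      refine av_aff (hAv (ns (φ j))) hc1 (hfac (ns (φ j)))
        (Real.exp (-(L (ns (φ j)) * (a / 2)))) (2 / a) fun x hx => ?_
      · show η (ns (φ j)) / (v (ns (φ j)) x + δ (ns (φ j))) ≤
          Real.exp (-(L (ns (φ j)) * (a / 2))) + 2 / a * |f (ns (φ j)) x - a|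
        have hη := (hδη (ns (φ j))).2.2
        rw [hexpf (ns (φ j)) x hx]
        have h3 : η (ns (φ j)) / (η (ns (φ j)) * Real.exp (L (ns (φ j)) * f (ns (φ j)) x)) =
            Real.exp (-(L (ns (φ j)) * f (ns (φ j)) x)) := by
          rw [Real.exp_neg]
          field_simp
        rw [h3]
        have hf0 := hfnn (ns (φ j)) x hx
        have hLp := hL0 (ns (φ j))
        rcases le_or_gt (a / 2) (f (ns (φ j)) x) with hc | hc
        · have h4 : Real.exp (-(L (ns (φ j)) * f (ns (φ j)) x)) ≤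
              Real.exp (-(L (ns (φ j)) * (a / 2))) :=
            Real.exp_le_exp.2 (neg_le_neg (mul_le_mul_of_nonneg_left hc hLp.le))
          have h5 : 0 ≤ 2 / a * |f (ns (φ j)) x - a| := by positivity
          linarith
        · have h4 : Real.exp (-(L (ns (φ j)) * f (ns (φ j)) x)) ≤ 1 := by
            rw [Real.exp_le_one_iff]
            have := mul_nonneg hLp.le hf0
            linarith
          have h5 : a / 2 ≤ |f (ns (φ j)) x - a| := by
            have := neg_abs_le (f (ns (φ j)) x - a)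
            linarith
          have h6 : 1 ≤ 2 / a * |f (ns (φ j)) x - a| := by
            have h7 := mul_le_mul_of_nonneg_left h5 (by positivity : (0 : ℝ) ≤ 2 / a)
            have h8 : 2 / a * (a / 2) = 1 := by field_simp
            linarith
          have h7 : 0 < Real.exp (-(L (ns (φ j)) * (a / 2))) := Real.exp_pos _
          linarith
    have h3 := ge_of_tendsto' h1 h2
    linarith

end Pool.Agent.Helper82.RBC
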